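import Mathlib

/-!
# Scalar extension of binary codes and characters of the odd part
-/

open Finset Module

namespace H70.AB

/-- the scalar extension of a binary code -/
def ext {X : Type} (K : Type) [AddCommGroup K] [Module (ZMod 2) K]
    (C : Submodule (ZMod 2) (X → ZMod 2)) : Submodule (ZMod 2) (X → K) where
  carrier := {f | ∀ lam : K →ₗ[ZMod 2] ZMod 2, (fun x => lam (f x)) ∈ C}
  add_mem' := by
    intro f g hf hg lam
    have := C.add_mem (hf lam) (hg lam)
    simp only [Pi.add_apply, map_add]
    exact this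
  zero_mem' := by
    intro lam
    simp only [Pi.zero_apply, map_zero]
    exact C.zero_mem
  smul_mem' := by
    intro c f hf lam
    have := C.smul_mem c (hf lam)
    simp only [Pi.smul_apply, map_smul]
    exact this

theorem mem_ext {X K : Type} [AddCommGroup K] [Module (ZMod 2) K]
    {C : Submodule (ZMod 2) (X → ZMod 2)} {f : X → K} :
    f ∈ ext K C ↔ ∀ lam : K →ₗ[ZMod 2] ZMod 2, (fun x => lam (f x)) ∈ C := Iff.rfl

/-- the dimension of the scalar extension -/
theorem finrank_ext {X K : Type} [Fintype X] [AddCommGroup K] [Module (ZMod 2) K]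
    [Module.Finite (ZMod 2) K] (C : Submodule (ZMod 2) (X → ZMod 2)) :
    finrank (ZMod 2) K * finrank (ZMod 2) C ≤ finrank (ZMod 2) (ext K C) := by
  let b := Module.finBasis (ZMod 2) K
  let Φ : (Fin (finrank (ZMod 2) K) → C) →ₗ[ZMod 2] ext K C :=
    { toFun := fun c => ⟨fun x => ∑ i, (c i : X → ZMod 2) x • b i, by
        intro lam
        have : (fun x => lam (∑ i, (c i : X → ZMod 2) x • b i)) =
            ∑ i, lam (b i) • (c i : X → ZMod 2) := by
          funext x
          rw [map_sum, Finset.sum_apply]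
          refine Finset.sum_congr rfl fun i _ => ?_
          rw [map_smul, Pi.smul_apply, smul_eq_mul, smul_eq_mul, mul_comm]
        rw [this]
        exact Submodule.sum_mem _ fun i _ => C.smul_mem _ (c i).2⟩
      map_add' := by
        intro c c'
        apply Subtype.ext
        funext x
        simp only [Pi.add_apply, Submodule.coe_add, add_smul, Finset.sum_add_distrib]
      map_smul' := by
        intro t c
        apply Subtype.ext
        funext x
        simp only [Pi.smul_apply, Submodule.coe_smul, RingHom.id_apply, Finset.smul_sum,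
          smul_eq_mul, mul_smul] }
  have hΦ : Function.Injective Φ := by
    rw [← LinearMap.ker_eq_bot, LinearMap.ker_eq_bot']
    intro c hc
    funext i
    apply Subtype.ext
    funext x
    have h1 : ∑ i, (c i : X → ZMod 2) x • b i = 0 := congrFun (congrArg Subtype.val hc) x
    have h2 := congrArg (fun k => b.repr k i) h1
    simp only [map_sum, map_smul, Basis.repr_self, map_zero, Finsupp.coe_zero,
      Pi.zero_apply] at h2
    rw [Finsupp.finset_sum_apply] at h2
    simp only [Finsupp.smul_apply, Finsupp.single_apply, smul_eq_mul, mul_ite, mul_one,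
      mul_zero, Finset.sum_ite_eq', Finset.mem_univ, if_true] at h2
    exact h2
  have h := LinearMap.finrank_le_finrank_of_injective hΦ
  rwa [Module.finrank_pi_fintype, Finset.sum_const, Finset.card_univ, Fintype.card_fin,
    smul_eq_mul] at h

/-- small words of the extension give small words of the code -/
theorem small_of_ext {X K : Type} [Fintype X] [AddCommGroup K] [Module (ZMod 2) K]
    [Module.Finite (ZMod 2) K] {C : Submodule (ZMod 2) (X → ZMod 2)} {f : X → K}
    (hf : f ∈ ext K C) (hf0 : f ≠ 0) (S : Finset X) (hS : ∀ x, x ∉ S → f x = 0) :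
    ∃ c ∈ C, c ≠ 0 ∧ hammingNorm c ≤ S.card := by
  classical
  let b := Module.finBasis (ZMod 2) K
  obtain ⟨x, hx⟩ : ∃ x, f x ≠ 0 := by
    by_contra h
    push Not at h
    exact hf0 (funext h)
  obtain ⟨i, hi⟩ : ∃ i, b.coord i (f x) ≠ 0 := by
    by_contra h
    push Not at h
    exact hx ((Basis.forall_coord_eq_zero_iff b).1 h)
  refine ⟨fun x => b.coord i (f x), hf (b.coord i), fun h => hi (congrFun h x), ?_⟩
  apply Finset.card_le_card
  intro y hy
  simp only [Finset.mem_filter, Finset.mem_univ, true_and] at hy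
  by_contra hyS
  apply hy
  rw [hS y hyS, map_zero]

section chars

variable {K : Type} [Field K] [Algebra (ZMod 2) K] [Fintype K]
variable {H : Type} [CommGroup H] [Fintype H]

/-- the component of a code at a character -/
def comp {Y : Type} (χ : H →* Kˣ) (C : Submodule (ZMod 2) (Y × H → K)) :
    Submodule (ZMod 2) (Y → K) where
  carrier := {g | (fun x : Y × H => (χ x.2 : K) * g x.1) ∈ C}
  add_mem' := by
    intro f g hf hg
    have := C.add_mem hf hg
    change (fun x : Y × H => (χ x.2 : K) * (f x.1 + g x.1)) ∈ C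
    simpa only [mul_add] using! this
  zero_mem' := by
    have := C.zero_mem
    change (fun x : Y × H => (χ x.2 : K) * (0 : K)) ∈ C
    simpa only [mul_zero] using! this
  smul_mem' := by
    intro c f hf
    have := C.smul_mem c hf
    change (fun x : Y × H => (χ x.2 : K) * (c • f x.1)) ∈ C
    simpa only [mul_smul_comm] using! this

theorem mem_comp {Y : Type} {χ : H →* Kˣ} {C : Submodule (ZMod 2) (Y × H → K)} {g : Y → K} :
    g ∈ comp χ C ↔ (fun x : Y × H => (χ x.2 : K) * g x.1) ∈ C := Iff.rfl

theorem sum_char [HasEnoughRootsOfUnity K (Monoid.exponent H)] [Fintype (H →* Kˣ)]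
    (h : H) (hh : h ≠ 1) : ∑ χ : H →* Kˣ, (χ h : K) = 0 := by
  obtain ⟨ψ, hψ⟩ := CommGroup.exists_apply_ne_one_of_hasEnoughRootsOfUnity H K hh
  have h1 : ∑ χ : H →* Kˣ, (χ h : K) = (ψ h : K) * ∑ χ : H →* Kˣ, (χ h : K) := by
    conv_lhs => rw [← Equiv.sum_comp (Equiv.mulLeft ψ)]
    rw [Finset.mul_sum]
    refine Finset.sum_congr rfl fun χ _ => ?_
    simp
  have h2 : ((ψ h : K) - 1) * ∑ χ : H →* Kˣ, (χ h : K) = 0 := by
    rw [sub_mul, one_mul, ← h1, sub_self]
  rcases mul_eq_zero.1 h2 with h3 | h3
  · exfalso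
    apply hψ
    apply Units.ext
    rw [Units.val_one]
    exact sub_eq_zero.1 h3
  · exact h3

omit [Fintype K] in
theorem cast_odd (n : ℕ) (hn : Odd n) : (n : K) = 1 := by
  have h2 : (2 : K) = 0 := by
    have h3 : algebraMap (ZMod 2) K 2 = 0 := by
      rw [show (2 : ZMod 2) = 0 from by decide, map_zero]
    rwa [map_ofNat] at h3
  obtain ⟨k, rfl⟩ := hn
  push_cast
  rw [h2, zero_mul, zero_add]

/-- the dimension is at most the sum of the dimensions of the components -/
theorem finrank_le_sum [HasEnoughRootsOfUnity K (Monoid.exponent H)] [Fintype (H →* Kˣ)]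
    (hodd : Odd (Fintype.card H)) {Y : Type} [Fintype Y]
    (C : Submodule (ZMod 2) (Y × H → K)) (hK : ∀ k : K, ∀ f ∈ C, (fun x => k * f x) ∈ C)
    (hC : ∀ h : H, ∀ f ∈ C, (fun x : Y × H => f (x.1, h * x.2)) ∈ C) :
    finrank (ZMod 2) C ≤ ∑ χ : H →* Kˣ, finrank (ZMod 2) (comp χ C) := by
  have hmem : ∀ χ : H →* Kˣ, ∀ f ∈ C,
      (fun y => ∑ h : H, (((χ h)⁻¹ : Kˣ) : K) * f (y, h)) ∈ comp χ C := by
    intro χ f hf
    rw [mem_comp]
    have h1 : (fun x : Y × H => (χ x.2 : K) * ∑ h : H, (((χ h)⁻¹ : Kˣ) : K) * f (x.1, h)) =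
        ∑ h : H, (fun x : Y × H => (((χ h)⁻¹ : Kˣ) : K) * f (x.1, h * x.2)) := by
      funext x
      rw [Finset.sum_apply, Finset.mul_sum, ← Equiv.sum_comp (Equiv.mulRight x.2)]
      refine Finset.sum_congr rfl fun h _ => ?_
      simp only [Equiv.coe_mulRight, map_mul, mul_inv, Units.val_mul]
      rw [← mul_assoc, mul_comm (χ x.2 : K), mul_assoc (((χ h)⁻¹ : Kˣ) : K), Units.inv_mul,
        mul_one]
    rw [h1]
    exact Submodule.sum_mem _ fun h _ => hK _ _ (hC h f hf)
  let Φ : C →ₗ[ZMod 2] (∀ χ : H →* Kˣ, comp χ C) :=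
    { toFun := fun f χ => ⟨_, hmem χ f f.2⟩
      map_add' := by
        intro f g
        funext χ
        apply Subtype.ext
        funext y
        change ∑ h : H, (((χ h)⁻¹ : Kˣ) : K) *
            ((f : Y × H → K) (y, h) + (g : Y × H → K) (y, h)) =
          ∑ h : H, (((χ h)⁻¹ : Kˣ) : K) * (f : Y × H → K) (y, h) +
          ∑ h : H, (((χ h)⁻¹ : Kˣ) : K) * (g : Y × H → K) (y, h)
        rw [← Finset.sum_add_distrib]
        exact Finset.sum_congr rfl fun h _ => mul_add _ _ _
      map_smul' := by
        intro c f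
        funext χ
        apply Subtype.ext
        funext y
        change ∑ h : H, (((χ h)⁻¹ : Kˣ) : K) * (c • (f : Y × H → K) (y, h)) =
          c • ∑ h : H, (((χ h)⁻¹ : Kˣ) : K) * (f : Y × H → K) (y, h)
        rw [Finset.smul_sum]
        exact Finset.sum_congr rfl fun h _ => mul_smul_comm _ _ _ }
  have hΦ : Function.Injective Φ := by
    rw [← LinearMap.ker_eq_bot, LinearMap.ker_eq_bot']
    intro f hf
    apply Subtype.ext
    funext x
    obtain ⟨y, h'⟩ := x
    have h1 : ∀ χ : H →* Kˣ, ∑ h : H, (((χ h)⁻¹ : Kˣ) : K) * (f : Y × H → K) (y, h) = 0 :=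
      fun χ => congrFun (congrArg Subtype.val (congrFun hf χ)) y
    have h2 : ∑ χ : H →* Kˣ, (χ h' : K) *
        ∑ h : H, (((χ h)⁻¹ : Kˣ) : K) * (f : Y × H → K) (y, h) = (f : Y × H → K) (y, h') := by
      calc ∑ χ : H →* Kˣ, (χ h' : K) * ∑ h : H, (((χ h)⁻¹ : Kˣ) : K) * (f : Y × H → K) (y, h)
          = ∑ h : H, (∑ χ : H →* Kˣ, (χ (h' * h⁻¹) : K)) * (f : Y × H → K) (y, h) := by
            simp_rw [Finset.mul_sum, Finset.sum_mul]
            rw [Finset.sum_comm]
            refine Finset.sum_congr rfl fun h _ => Finset.sum_congr rfl fun χ _ => ?_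
            rw [map_mul, map_inv, Units.val_mul, mul_assoc]
        _ = (∑ χ : H →* Kˣ, (χ (h' * h'⁻¹) : K)) * (f : Y × H → K) (y, h') := by
            refine Finset.sum_eq_single h' ?_ ?_
            · intro h _ hne
              rw [sum_char, zero_mul]
              intro heq
              exact hne (mul_inv_eq_one.1 heq).symm
            · intro h
              exact (h (Finset.mem_univ _)).elim
        _ = (f : Y × H → K) (y, h') := by
            simp only [mul_inv_cancel, map_one, Units.val_one, Finset.sum_const,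
              Finset.card_univ, nsmul_eq_mul, mul_one]
            rw [← Nat.card_eq_fintype_card, CommGroup.card_monoidHom_of_hasEnoughRootsOfUnity,
              Nat.card_eq_fintype_card, cast_odd _ hodd, one_mul]
    rw [← h2]
    change _ = (0 : K)
    apply Finset.sum_eq_zero
    intro χ _
    rw [h1, mul_zero]
  have h := LinearMap.finrank_le_finrank_of_injective hΦ
  rwa [Module.finrank_pi_fintype] at h

end chars

end H70.AB
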