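import Mathlib
import Pool.Agent.H70R2.TG.Final
import Pool.Agent.H70R2.AB.Ext

/-!
# Quasi-abelian codes: the case of many even invariants
-/

open Finset Module

namespace H70.AB

variable {K : Type} [Field K] [Algebra (ZMod 2) K] [Fintype K]

omit [Fintype K] in
theorem ext_mul {X : Type} {C : Submodule (ZMod 2) (X → ZMod 2)} (k : K) {f : X → K}
    (hf : f ∈ ext K C) : (fun x => k * f x) ∈ ext K C := by
  intro lam
  exact hf (lam ∘ₗ LinearMap.mulLeft (ZMod 2) k)

omit [Fintype K] in
theorem ext_inv {X : Type} {C : Submodule (ZMod 2) (X → ZMod 2)} (t : X → X)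
    (ht : ∀ f ∈ C, (fun x => f (t x)) ∈ C) {f : X → K}
    (hf : f ∈ ext K C) : (fun x => f (t x)) ∈ ext K C := by
  intro lam
  exact ht _ (hf lam)

/-- some component is large -/
theorem exists_comp {H : Type} [CommGroup H] [Fintype H]
    [HasEnoughRootsOfUnity K (Monoid.exponent H)] [Fintype (H →* Kˣ)]
    (hodd : Odd (Fintype.card H)) {Y : Type} [Fintype Y]
    (C : Submodule (ZMod 2) (Y × H → ZMod 2))
    (hC : ∀ h : H, ∀ f ∈ C, (fun x : Y × H => f (x.1, h * x.2)) ∈ C) :
    finrank (ZMod 2) K * finrank (ZMod 2) C ≤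
      ∑ χ : H →* Kˣ, finrank (ZMod 2) (comp χ (ext K C)) :=
  (finrank_ext C).trans (finrank_le_sum hodd (ext K C) (fun k _ hf => ext_mul k hf)
    (fun h _ hf => ext_inv _ (hC h) hf))

/-- weights in a component -/
theorem comp_weight {H : Type} [CommGroup H] [Fintype H] {Y : Type} [Fintype Y] [DecidableEq K]
    {C : Submodule (ZMod 2) (Y × H → ZMod 2)} {δ : ℝ}
    (hw : ∀ f ∈ C, f ≠ 0 → δ * Fintype.card (Y × H) ≤ hammingNorm f)
    (χ : H →* Kˣ) {g : Y → K} (hg : g ∈ comp χ (ext K C)) (hg0 : g ≠ 0) :
    δ * Fintype.card Y ≤ (univ.filter fun y => g y ≠ 0).card := by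
  classical
  rw [mem_comp] at hg
  have hne : (fun x : Y × H => (χ x.2 : K) * g x.1) ≠ 0 := by
    intro h
    apply hg0
    funext y
    have := congrFun h (y, 1)
    simpa using this
  obtain ⟨c, hc, hc0, hcw⟩ := small_of_ext hg hne
    ((univ.filter fun y => g y ≠ 0) ×ˢ (univ : Finset H)) (by
      rintro ⟨y, h⟩ hx
      simp only [Finset.mem_product, Finset.mem_filter, Finset.mem_univ, true_and, and_true,
        not_not] at hx
      simp [hx])
  have h1 := hw c hc hc0
  rw [Finset.card_product, Finset.card_univ] at hcw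
  have h2 : (hammingNorm c : ℝ) ≤ (univ.filter fun y => g y ≠ 0).card * Fintype.card H := by
    exact_mod_cast hcw
  have h3 : (0 : ℝ) < Fintype.card H := by
    have : 0 < Fintype.card H := Fintype.card_pos
    exact_mod_cast this
  rw [Fintype.card_prod] at h1
  push_cast at h1
  have h4 : (δ * Fintype.card Y) * Fintype.card H ≤
      (univ.filter fun y => g y ≠ 0).card * Fintype.card H := by
    calc _ = δ * (Fintype.card Y * Fintype.card H) := by ring
      _ ≤ _ := h1.trans h2
  exact le_of_mul_le_mul_right h4 h3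

variable (K) in
/-- the even case -/
theorem caseA (ℓ : ℕ) (δ ε : ℝ) (hδ : 0 < δ) (hε : 0 < ε) :
    ∃ M : ℕ, ∀ m ≥ M, ∀ (P H : Type) [Group P] [Fintype P] [CommGroup H] [Fintype H]
      [HasEnoughRootsOfUnity K (Monoid.exponent H)] (φ : P →* Multiplicative (Fin m → ZMod 2)),
      IsPGroup 2 P → Function.Surjective φ → Odd (Fintype.card H) →
      ∀ C : Submodule (ZMod 2) ((P × Fin ℓ) × H → ZMod 2),
        (∀ g : P, ∀ f ∈ C, (fun x : (P × Fin ℓ) × H => f ((g * x.1.1, x.1.2), x.2)) ∈ C) →
        (∀ h : H, ∀ f ∈ C, (fun x : (P × Fin ℓ) × H => f (x.1, h * x.2)) ∈ C) →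
        (∀ f ∈ C, f ≠ 0 → δ * Fintype.card ((P × Fin ℓ) × H) ≤ hammingNorm f) →
        (finrank (ZMod 2) C : ℝ) ≤ ε * Fintype.card ((P × Fin ℓ) × H) := by
  classical
  set e := finrank (ZMod 2) K with he
  have he0 : 0 < e := finrank_pos
  have he0' : (0 : ℝ) < e := by exact_mod_cast he0
  obtain ⟨M, hM⟩ := TG.main (ℓ * e) (δ / e) ε (by positivity) hε
  refine ⟨M, ?_⟩
  intro m hm P H _ _ _ _ _ φ hP hφ hodd C hCP hCH hw
  have hfinHom : Finite (H →* Kˣ) := inferInstance
  letI : Fintype (H →* Kˣ) := Fintype.ofFinite _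
  by_contra hcon
  push Not at hcon
  have hHpos : (0 : ℝ) < Fintype.card H := by
    have : 0 < Fintype.card H := Fintype.card_pos
    exact_mod_cast this
  have hcardHom : Fintype.card (H →* Kˣ) = Fintype.card H := by
    rw [← Nat.card_eq_fintype_card, CommGroup.card_monoidHom_of_hasEnoughRootsOfUnity,
      Nat.card_eq_fintype_card]
  obtain ⟨χ, hχ⟩ : ∃ χ : H →* Kˣ, ε * (Fintype.card (P × Fin ℓ) * e) <
      finrank (ZMod 2) (comp χ (ext K C)) := by
    by_contra hall
    push Not at hall
    have h1 := exists_comp (K := K) hodd C hCH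
    have h2 : (e : ℝ) * finrank (ZMod 2) C ≤
        ∑ χ : H →* Kˣ, (finrank (ZMod 2) (comp χ (ext K C)) : ℝ) := by exact_mod_cast h1
    have h3 := h2.trans (Finset.sum_le_sum fun χ _ => hall χ)
    rw [Finset.sum_const, Finset.card_univ, hcardHom, nsmul_eq_mul] at h3
    have h4 : (e : ℝ) * (ε * Fintype.card ((P × Fin ℓ) × H)) < e * finrank (ZMod 2) C :=
      mul_lt_mul_of_pos_left hcon he0'
    rw [Fintype.card_prod (P × Fin ℓ) H] at h4
    push_cast at h4 h3
    nlinarith
  -- the binary code on `P × (Fin ℓ × Fin e)`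
  let b := Module.finBasis (ZMod 2) K
  letI act : MulAction P (P × (Fin ℓ × Fin e)) :=
    { smul := fun g x => (g * x.1, x.2)
      one_smul := by
        rintro ⟨p, w⟩
        change (1 * p, w) = (p, w)
        rw [one_mul]
      mul_smul := by
        rintro g g' ⟨p, w⟩
        change (g * g' * p, w) = (g * (g' * p), w)
        rw [mul_assoc] }
  have hact : ∀ (g : P) (x : P × (Fin ℓ × Fin e)), g • x = (g * x.1, x.2) := fun _ _ => rfl
  let T : (P × Fin ℓ → K) →ₗ[ZMod 2] (P × (Fin ℓ × Fin e) → ZMod 2) :=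
    { toFun := fun f x => b.coord x.2.2 (f (x.1, x.2.1))
      map_add' := by
        intro f g
        funext x
        simp only [Pi.add_apply, map_add]
      map_smul' := by
        intro c f
        funext x
        simp only [Pi.smul_apply, map_smul, RingHom.id_apply] }
  have hT : ∀ f x, T f x = b.coord x.2.2 (f (x.1, x.2.1)) := fun _ _ => rfl
  have hTne : ∀ (f : P × Fin ℓ → K) p i, f (p, i) ≠ 0 → ∃ j, T f (p, (i, j)) ≠ 0 := by
    intro f p i hne
    by_contra h
    push Not at h
    exact hne ((Basis.forall_coord_eq_zero_iff b).1 h)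
  have hTinj : Function.Injective T := by
    rw [← LinearMap.ker_eq_bot, LinearMap.ker_eq_bot']
    intro f hf
    funext ⟨p, i⟩
    by_contra hne
    obtain ⟨j, hj⟩ := hTne f p i hne
    exact hj (congrFun hf _)
  let D := (comp χ (ext K C)).map T
  have hDdim : finrank (ZMod 2) D = finrank (ZMod 2) (comp χ (ext K C)) :=
    (LinearEquiv.finrank_eq (Submodule.equivMapOfInjective T hTinj _)).symm
  have hcardΩ : Fintype.card (P × (Fin ℓ × Fin e)) = Fintype.card (P × Fin ℓ) * e := by
    simp only [Fintype.card_prod, Fintype.card_fin]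
    ring
  have hfin := hM m hm P (P × (Fin ℓ × Fin e)) φ hP hφ (by
      intro x g hg
      rw [MulAction.mem_stabilizer_iff, hact] at hg
      have h1 : g * x.1 = x.1 := congrArg Prod.fst hg
      have h2 : g = 1 := by
        have := mul_eq_right.1 h1
        exact this
      rw [h2]
      exact one_mem _) (by
      have hinj : Function.Injective (fun o : MulAction.orbitRel.Quotient P (P × (Fin ℓ × Fin e)) =>
          Quotient.liftOn' o (fun x => x.2) (by
            intro x y hxy
            rw [MulAction.orbitRel_apply] at hxy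
            obtain ⟨g, rfl⟩ := hxy
            rfl)) := by
        intro o o'
        induction o using Quotient.inductionOn' with | h x => ?_
        induction o' using Quotient.inductionOn' with | h y => ?_
        intro h
        apply Quotient.sound'
        rw [MulAction.orbitRel_apply]
        refine ⟨x.1 * y.1⁻¹, ?_⟩
        change (x.1 * y.1⁻¹ * y.1, y.2) = x
        rw [inv_mul_cancel_right]
        have h' : x.2 = y.2 := h
        rw [← h']
      have := Nat.card_le_card_of_injective _ hinj
      simpa using this) D (by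
      intro g F hF
      obtain ⟨f, hf, rfl⟩ := hF
      refine ⟨fun y => f (g * y.1, y.2), ?_, rfl⟩
      rw [SetLike.mem_coe, mem_comp] at hf ⊢
      exact ext_inv (fun x : (P × Fin ℓ) × H => ((g * x.1.1, x.1.2), x.2)) (hCP g) hf) (by
      intro F hF hF0
      obtain ⟨f, hf, rfl⟩ := hF
      have hf0 : f ≠ 0 := by
        rintro rfl
        exact hF0 (map_zero T)
      have h1 := comp_weight hw χ hf hf0
      rw [hcardΩ]
      have h2 : (univ.filter fun y => f y ≠ 0).card ≤ hammingNorm (T f) := by
        refine le_trans (Finset.card_le_card ?_) (Finset.card_image_le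
          (s := univ.filter fun x => T f x ≠ 0) (f := fun x => (x.1, x.2.1)))
        rintro ⟨p, i⟩ hy
        simp only [Finset.mem_filter, Finset.mem_univ, true_and] at hy
        obtain ⟨j, hj⟩ := hTne f p i hy
        rw [Finset.mem_image]
        exact ⟨(p, (i, j)), by simpa using hj, rfl⟩
      have h3 : ((univ.filter fun y => f y ≠ 0).card : ℝ) ≤ hammingNorm (T f) := by
        exact_mod_cast h2
      push_cast
      calc δ / e * (Fintype.card (P × Fin ℓ) * e) = δ * Fintype.card (P × Fin ℓ) := by
            field_simp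
        _ ≤ _ := h1.trans h3)
  rw [hDdim, hcardΩ] at hfin
  push_cast at hfin hχ
  linarith

end H70.AB
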