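import Mathlib
import Pool.Agent.Helper903.DHJ
import Pool.Agent.H70R2.AB.CaseA

/-!
# Quasi-abelian codes: the case of many invariants at an odd prime
-/

open Finset Module

namespace H70.AB

variable {K : Type} [Field K] [Algebra (ZMod 2) K] [Fintype K]

theorem dens_eq {X : Type} [Fintype X] [DecidableEq X] (A : Finset X) :
    Pool.Agent.Helper903.DHJ.dens (A : Set X) = (A.card : ℝ) / Fintype.card X := by
  unfold Pool.Agent.Helper903.DHJ.dens Pool.Agent.Helper903.DHJ.avg
  congr 1
  have h : ∀ x, Pool.Agent.Helper903.DHJ.ind (A : Set X) x = if x ∈ A then (1 : ℝ) else 0 := by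
    intro x
    by_cases hx : x ∈ A
    · rw [Pool.Agent.Helper903.DHJ.ind_mem (Finset.mem_coe.2 hx), if_pos hx]
    · rw [Pool.Agent.Helper903.DHJ.ind_not_mem (fun h => hx (Finset.mem_coe.1 h)), if_neg hx]
  simp_rw [h]
  rw [Finset.sum_ite_mem, Finset.univ_inter, Finset.sum_const, nsmul_eq_mul, mul_one]

/-- the characters coming from the elementary abelian quotient -/
def chi {p n : ℕ} {H : Type} [CommGroup H] (φ : H →* Multiplicative (Fin n → ZMod p))
    (θ : Multiplicative (ZMod p) →* Kˣ) (a : Fin n → ZMod p) : H →* Kˣ where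
  toFun := fun h => θ (Multiplicative.ofAdd (∑ i, a i * (Multiplicative.toAdd (φ h)) i))
  map_one' := by
    rw [map_one]
    simp
  map_mul' := by
    intro h h'
    rw [map_mul, toAdd_mul, ← map_mul, ← ofAdd_add, ← Finset.sum_add_distrib]
    congr 2
    refine Finset.sum_congr rfl fun i _ => ?_
    rw [Pi.add_apply, mul_add]

omit [Algebra (ZMod 2) K] [Fintype K] in
theorem chi_apply {p n : ℕ} {H : Type} [CommGroup H] (φ : H →* Multiplicative (Fin n → ZMod p))
    (θ : Multiplicative (ZMod p) →* Kˣ) (a : Fin n → ZMod p) (h : H) :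
    chi φ θ a h = θ (Multiplicative.ofAdd (∑ i, a i * (Multiplicative.toAdd (φ h)) i)) := rfl

/-- a common vector for a dense set of characters -/
theorem pigeon {T Y L : Type} [Fintype T] [Fintype Y] [Nonempty Y] [Fintype L] (B : ℕ)
    (hB : Fintype.card Y ≤ B) [AddCommGroup L] [Module (ZMod 2) L]
    (D : T → Submodule (ZMod 2) (Y → L)) {ε : ℝ} (hε : 0 < ε)
    (hD : ε * (Fintype.card T * (Fintype.card Y * finrank (ZMod 2) L)) <
      ∑ t, (finrank (ZMod 2) (D t) : ℝ)) :
    ∃ w : Y → L, w ≠ 0 ∧ ∃ S : Finset T, (∀ t ∈ S, w ∈ D t) ∧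
      ε / (Fintype.card L : ℝ) ^ B * Fintype.card T ≤ S.card := by
  classical
  by_contra hcon
  push Not at hcon
  have hLpos : (1 : ℝ) ≤ Fintype.card L := by
    have : 0 < Fintype.card L := Fintype.card_pos
    exact_mod_cast this
  have hT : Nonempty T := by
    by_contra h
    rw [not_nonempty_iff] at h
    simp at hD
  have hTpos : (0 : ℝ) < Fintype.card T := by
    have : 0 < Fintype.card T := Fintype.card_pos
    exact_mod_cast this
  -- the nonzero components
  let S0 : Finset T := univ.filter fun t => D t ≠ ⊥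
  have h1 : ∑ t, (finrank (ZMod 2) (D t) : ℝ) ≤
      S0.card * (Fintype.card Y * finrank (ZMod 2) L) := by
    have h2 : ∀ t, (finrank (ZMod 2) (D t) : ℝ) ≤
        if t ∈ S0 then ((Fintype.card Y * finrank (ZMod 2) L : ℕ) : ℝ) else 0 := by
      intro t
      by_cases ht : D t = ⊥
      · rw [if_neg (by simp [S0, ht]), ht, finrank_bot]
        simp
      · rw [if_pos (by simp [S0, ht])]
        have h3 := Submodule.finrank_le (D t)
        rw [Module.finrank_pi_fintype, Finset.sum_const, Finset.card_univ, smul_eq_mul] at h3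
        exact_mod_cast h3
    refine (Finset.sum_le_sum fun t _ => h2 t).trans ?_
    rw [Finset.sum_ite_mem, Finset.univ_inter, Finset.sum_const, nsmul_eq_mul]
    push_cast
    exact le_refl _
  have h3 : ε * Fintype.card T < S0.card := by
    by_contra h
    push Not at h
    have h4 : (S0.card : ℝ) * (Fintype.card Y * finrank (ZMod 2) L) ≤
        ε * Fintype.card T * (Fintype.card Y * finrank (ZMod 2) L) :=
      mul_le_mul_of_nonneg_right h (by positivity)
    have h5 := hD.trans_le (h1.trans h4)
    apply lt_irrefl _ (h5.trans_le (le_of_eq _))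
    ring
  have h4 : S0 ⊆ (univ.filter fun w : Y → L => w ≠ 0).biUnion
      fun w => univ.filter fun t => w ∈ D t := by
    intro t ht
    simp only [S0, Finset.mem_filter, Finset.mem_univ, true_and] at ht
    obtain ⟨w, hw, hw0⟩ := Submodule.exists_mem_ne_zero_of_ne_bot ht
    simp only [Finset.mem_biUnion, Finset.mem_filter, Finset.mem_univ, true_and]
    exact ⟨w, hw0, hw⟩
  have h5 : (S0.card : ℝ) ≤ ∑ w ∈ univ.filter fun w : Y → L => w ≠ 0,
      ((univ.filter fun t => w ∈ D t).card : ℝ) := by
    exact_mod_cast (Finset.card_le_card h4).trans Finset.card_biUnion_le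
  have h6 : ∑ w ∈ univ.filter fun w : Y → L => w ≠ 0,
      ((univ.filter fun t => w ∈ D t).card : ℝ) ≤
      ∑ w ∈ univ.filter fun w : Y → L => w ≠ 0,
        (ε / (Fintype.card L : ℝ) ^ B * Fintype.card T) := by
    apply Finset.sum_le_sum
    intro w hw
    simp only [Finset.mem_filter, Finset.mem_univ, true_and] at hw
    exact (hcon w hw (univ.filter fun t => w ∈ D t) (by simp)).le
  rw [Finset.sum_const, nsmul_eq_mul] at h6
  have h7 : ((univ.filter fun w : Y → L => w ≠ 0).card : ℝ) ≤ (Fintype.card L : ℝ) ^ B := by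
    have h8 : (univ.filter fun w : Y → L => w ≠ 0).card ≤ Fintype.card L ^ Fintype.card Y := by
      refine (Finset.card_le_univ _).trans (le_of_eq ?_)
      rw [Fintype.card_fun]
    calc ((univ.filter fun w : Y → L => w ≠ 0).card : ℝ)
        ≤ (Fintype.card L : ℝ) ^ Fintype.card Y := by exact_mod_cast h8
      _ ≤ (Fintype.card L : ℝ) ^ B := pow_le_pow_right₀ hLpos hB
  have h8 : (0 : ℝ) < (Fintype.card L : ℝ) ^ B := by positivity
  have h9 : ((univ.filter fun w : Y → L => w ≠ 0).card : ℝ) *
      (ε / (Fintype.card L : ℝ) ^ B * Fintype.card T) ≤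
      (Fintype.card L : ℝ) ^ B * (ε / (Fintype.card L : ℝ) ^ B * Fintype.card T) :=
    mul_le_mul_of_nonneg_right h7 (by positivity)
  have h10 : (Fintype.card L : ℝ) ^ B * (ε / (Fintype.card L : ℝ) ^ B * Fintype.card T) =
      ε * Fintype.card T := by
    field_simp
  linarith

variable (K) in
/-- the odd case -/
theorem caseB (B p : ℕ) [hpp : Fact p.Prime] (hp : Odd p) {ζ : K} (hζ : IsPrimitiveRoot ζ p)
    (δ ε : ℝ) (hδ : 0 < δ) (hε : 0 < ε) :
    ∃ n : ℕ, ∀ (Y H : Type) [Fintype Y] [CommGroup H] [Fintype H]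
      [HasEnoughRootsOfUnity K (Monoid.exponent H)] (φ : H →* Multiplicative (Fin n → ZMod p)),
      Fintype.card Y ≤ B → Function.Surjective φ → Odd (Fintype.card H) →
      ∀ C : Submodule (ZMod 2) (Y × H → ZMod 2),
        (∀ h : H, ∀ f ∈ C, (fun x : Y × H => f (x.1, h * x.2)) ∈ C) →
        (∀ f ∈ C, f ≠ 0 → δ * Fintype.card (Y × H) ≤ hammingNorm f) →
        (finrank (ZMod 2) C : ℝ) ≤ ε * Fintype.card (Y × H) := by
  classical
  have hp1 : (1 : ℝ) < p := by exact_mod_cast hpp.out.one_lt
  obtain ⟨u, hu⟩ : ∃ u : ℕ, 1 / δ < (p : ℝ) ^ u := pow_unbounded_of_one_lt _ hp1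
  have hKpos : (0 : ℝ) < Fintype.card K := by
    have : 0 < Fintype.card K := Fintype.card_pos
    exact_mod_cast this
  obtain ⟨n, hn⟩ := Pool.Agent.Helper903.DHJ.mdhj (ZMod p) u
    (ε / (Fintype.card K : ℝ) ^ B) (by positivity)
  refine ⟨n, ?_⟩
  intro Y H _ _ _ _ φ hB hφ hodd C hC hw
  by_contra hcon
  push Not at hcon
  have hY : Nonempty Y := by
    by_contra h
    rw [not_nonempty_iff] at h
    have h1 : finrank (ZMod 2) C ≤ 0 := by
      refine (Submodule.finrank_le _).trans ?_
      rw [Module.finrank_fintype_fun_eq_card, Fintype.card_eq_zero]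
    have h2 : finrank (ZMod 2) C = 0 := by omega
    rw [h2] at hcon
    simp at hcon
  have hfinHom : Finite (H →* Kˣ) := inferInstance
  let hft : Fintype (H →* Kˣ) := Fintype.ofFinite _
  have hHpos : (0 : ℝ) < Fintype.card H := by
    have : 0 < Fintype.card H := Fintype.card_pos
    exact_mod_cast this
  have hYpos : (0 : ℝ) < Fintype.card Y := by
    have : 0 < Fintype.card Y := Fintype.card_pos
    exact_mod_cast this
  have hcardHom : Fintype.card (H →* Kˣ) = Fintype.card H := by
    rw [← Nat.card_eq_fintype_card, CommGroup.card_monoidHom_of_hasEnoughRootsOfUnity,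
      Nat.card_eq_fintype_card]
  have he0 : (0 : ℝ) < finrank (ZMod 2) K := by
    have : 0 < finrank (ZMod 2) K := finrank_pos
    exact_mod_cast this
  obtain ⟨w, hw0, S, hS, hScard⟩ := pigeon (T := H →* Kˣ) B hB
    (fun χ => comp χ (ext K C)) hε (by
      have h1 := exists_comp (K := K) hodd C hC
      have h2 : (finrank (ZMod 2) K : ℝ) * finrank (ZMod 2) C ≤
          ∑ χ : H →* Kˣ, (finrank (ZMod 2) (comp χ (ext K C)) : ℝ) := by exact_mod_cast h1
      refine lt_of_lt_of_le ?_ h2
      have h3 : (finrank (ZMod 2) K : ℝ) * (ε * Fintype.card (Y × H)) <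
          finrank (ZMod 2) K * finrank (ZMod 2) C := mul_lt_mul_of_pos_left hcon he0
      refine lt_of_eq_of_lt ?_ h3
      rw [hcardHom, Fintype.card_prod]
      push_cast
      ring)
  -- the character of order `p`
  let θ : Multiplicative (ZMod p) →* Kˣ := (AddChar.zmodChar p hζ.pow_eq_one).toMonoidHom.toHomUnits
  have hθ : ∀ t : ZMod p, t ≠ 0 → θ (Multiplicative.ofAdd t) ≠ 1 := by
    intro t ht h1
    have h2 : (AddChar.zmodChar p hζ.pow_eq_one) t = 1 := congrArg Units.val h1
    rw [AddChar.zmodChar_apply] at h2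
    have h3 := (hζ.pow_eq_one_iff_dvd _).1 h2
    have h4 : t.val = 0 := Nat.eq_zero_of_dvd_of_lt h3 (ZMod.val_lt t)
    exact ht ((ZMod.val_eq_zero t).1 h4)
  -- a good coset
  obtain ⟨χ0, hχ0⟩ : ∃ χ0 : H →* Kˣ, (S.card : ℝ) * Fintype.card (Fin n → ZMod p) ≤
      (univ.filter fun a => χ0 * chi φ θ a ∈ S).card * Fintype.card H := by
    by_contra hall
    push Not at hall
    have h1 := Finset.sum_lt_sum_of_nonempty (s := (univ : Finset (H →* Kˣ)))
      ⟨1, Finset.mem_univ _⟩ (fun χ0 _ => hall χ0)
    rw [Finset.sum_const, Finset.card_univ, hcardHom, nsmul_eq_mul, ← Finset.sum_mul] at h1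
    have h2 : ∑ χ0 : H →* Kˣ, (univ.filter fun a => χ0 * chi φ θ a ∈ S).card =
        Fintype.card (Fin n → ZMod p) * S.card := by
      simp_rw [Finset.card_filter]
      rw [Finset.sum_comm]
      have h3 : ∀ a : Fin n → ZMod p,
          ∑ χ0 : H →* Kˣ, (if χ0 * chi φ θ a ∈ S then 1 else 0) = S.card := by
        intro a
        rw [← Finset.card_filter]
        have hc1 : ∀ χ : H →* Kˣ, χ * (chi φ θ a)⁻¹ * chi φ θ a = χ := by
          intro χ
          apply MonoidHom.ext
          intro h
          rw [MonoidHom.mul_apply, MonoidHom.mul_apply, MonoidHom.inv_apply,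
            inv_mul_cancel_right]
        have hc2 : ∀ χ : H →* Kˣ, χ * chi φ θ a * (chi φ θ a)⁻¹ = χ := by
          intro χ
          apply MonoidHom.ext
          intro h
          rw [MonoidHom.mul_apply, MonoidHom.mul_apply, MonoidHom.inv_apply,
            mul_inv_cancel_right]
        refine Finset.card_nbij' (i := fun χ => χ * chi φ θ a)
          (j := fun χ => χ * (chi φ θ a)⁻¹) ?_ ?_ ?_ ?_
        · intro χ hχ
          simpa using hχ
        · intro χ hχ
          simp only [Finset.coe_filter, Finset.mem_univ, true_and, Set.mem_setOf_eq]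
          rw [hc1]
          exact hχ
        · intro χ _
          exact hc2 χ
        · intro χ _
          exact hc1 χ
      rw [Finset.sum_congr rfl fun a _ => h3 a, Finset.sum_const, Finset.card_univ, smul_eq_mul]
    have h3 : ∑ χ0 : H →* Kˣ, ((univ.filter fun a => χ0 * chi φ θ a ∈ S).card : ℝ) =
        Fintype.card (Fin n → ZMod p) * S.card := by exact_mod_cast h2
    rw [h3] at h1
    apply lt_irrefl _ (h1.trans_le (le_of_eq _))
    ring
  have hXpos : (0 : ℝ) < Fintype.card (Fin n → ZMod p) := by
    have : 0 < Fintype.card (Fin n → ZMod p) := Fintype.card_pos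
    exact_mod_cast this
  obtain ⟨V, hV⟩ := hn ((univ.filter fun a => χ0 * chi φ θ a ∈ S : Finset (Fin n → ZMod p)) :
      Set (Fin n → ZMod p)) (by
    rw [dens_eq, le_div_iff₀ hXpos]
    rw [hcardHom] at hScard
    have h1 : (ε / (Fintype.card K : ℝ) ^ B * Fintype.card (Fin n → ZMod p)) * Fintype.card H ≤
        (univ.filter fun a => χ0 * chi φ θ a ∈ S).card * Fintype.card H := by
      refine le_trans ?_ hχ0
      calc _ = (ε / (Fintype.card K : ℝ) ^ B * Fintype.card H) * Fintype.card (Fin n → ZMod p) := by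
            ring
        _ ≤ _ := mul_le_mul_of_nonneg_right hScard hXpos.le
    exact le_of_mul_le_mul_right h1 hHpos)
  have hV' : ∀ y, w ∈ comp (χ0 * chi φ θ (V y)) (ext K C) := by
    intro y
    have h1 := hV y
    simp only [Finset.coe_filter, Finset.mem_univ, true_and, Set.mem_setOf_eq] at h1
    exact hS _ h1
  -- the word
  let f : Y × H → K := ∑ y : Fin u → ZMod p,
    fun x : Y × H => ((χ0 * chi φ θ (V y)) x.2 : K) * w x.1
  have hf : f ∈ ext K C := Submodule.sum_mem _ fun y _ => hV' y
  have hfx : ∀ x, f x = (χ0 x.2 : K) * w x.1 * ∑ y : Fin u → ZMod p, (chi φ θ (V y) x.2 : K) := by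
    intro x
    simp only [f, Finset.sum_apply, MonoidHom.mul_apply, Units.val_mul]
    rw [Finset.mul_sum]
    refine Finset.sum_congr rfl fun y _ => ?_
    ring
  -- the homomorphism
  let s : H → Fin u → ZMod p := fun h e =>
    ∑ i ∈ univ.filter (fun i => V.idxFun i = Sum.inr e), (Multiplicative.toAdd (φ h)) i
  have hs_mul : ∀ h h', s (h * h') = s h + s h' := by
    intro h h'
    funext e
    simp only [s, map_mul, toAdd_mul, Pi.add_apply, Finset.sum_add_distrib]
  have hs_surj : ∀ z, ∃ h, s h = z := by
    intro z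
    choose idx hidx using V.proper
    obtain ⟨h, hh⟩ := hφ (Multiplicative.ofAdd (fun i => ∑ e, if idx e = i then z e else 0))
    refine ⟨h, ?_⟩
    funext e
    simp only [s, hh, toAdd_ofAdd]
    rw [Finset.sum_comm]
    rw [Finset.sum_eq_single e]
    · rw [Finset.sum_ite_eq, if_pos]
      simp [hidx]
    · intro e' _ hne
      apply Finset.sum_eq_zero
      intro i hi
      rw [if_neg]
      rintro rfl
      simp only [Finset.mem_filter, Finset.mem_univ, true_and, hidx] at hi
      exact hne (Sum.inr_injective hi)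
    · intro h
      exact (h (Finset.mem_univ _)).elim
  have hzero : ∀ h, s h ≠ 0 → ∑ y : Fin u → ZMod p, (chi φ θ (V y) h : K) = 0 := by
    intro h hne
    obtain ⟨e, he⟩ : ∃ e, s h e ≠ 0 := by
      by_contra hall
      push Not at hall
      exact hne (funext hall)
    have h1 : ∀ y : Fin u → ZMod p, (chi φ θ (V (y + Pi.single e 1)) h : K) =
        θ (Multiplicative.ofAdd (s h e)) * chi φ θ (V y) h := by
      intro y
      rw [chi_apply, chi_apply, ← Units.val_mul, ← map_mul, ← ofAdd_add]
      congr 3
      simp only [s]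
      rw [Finset.sum_filter, ← Finset.sum_add_distrib]
      refine Finset.sum_congr rfl fun i _ => ?_
      rw [Combinatorics.Subspace.coe_apply, Combinatorics.Subspace.coe_apply]
      cases hi : V.idxFun i with
      | inl t => simp
      | inr e' =>
        by_cases hee : e' = e
        · subst hee
          simp only [Sum.elim_inr, Pi.add_apply, Pi.single_eq_same, if_true]
          ring
        · simp only [Sum.elim_inr, Pi.add_apply, Pi.single_eq_of_ne hee, add_zero]
          rw [if_neg, zero_add]
          intro h'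
          exact hee (Sum.inr_injective h')
    have h2 : ∑ y : Fin u → ZMod p, (chi φ θ (V y) h : K) =
        θ (Multiplicative.ofAdd (s h e)) * ∑ y : Fin u → ZMod p, (chi φ θ (V y) h : K) := by
      conv_lhs => rw [← Equiv.sum_comp (Equiv.addRight (Pi.single e 1))]
      rw [Finset.mul_sum]
      refine Finset.sum_congr rfl fun y _ => ?_
      rw [Equiv.coe_addRight, h1]
    have h3 : ((θ (Multiplicative.ofAdd (s h e)) : K) - 1) *
        ∑ y : Fin u → ZMod p, (chi φ θ (V y) h : K) = 0 := by
      rw [sub_mul, one_mul, ← h2, sub_self]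
    rcases mul_eq_zero.1 h3 with h4 | h4
    · exfalso
      apply hθ _ he
      apply Units.ext
      rw [Units.val_one]
      exact sub_eq_zero.1 h4
    · exact h4
  have hf0 : f ≠ 0 := by
    obtain ⟨y, hy⟩ : ∃ y, w y ≠ 0 := by
      by_contra hall
      push Not at hall
      exact hw0 (funext hall)
    intro h
    apply hy
    have h1 := congrFun h (y, 1)
    rw [hfx] at h1
    simp only [map_one, Units.val_one, one_mul, Finset.sum_const, Finset.card_univ, nsmul_eq_mul,
      mul_one, Fintype.card_fun, ZMod.card, Fintype.card_fin, Pi.zero_apply] at h1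
    rw [cast_odd (K := K) _ (hp.pow), mul_one] at h1
    exact h1
  have hfib : ∀ z, (univ.filter fun h => s h = z).card = (univ.filter fun h => s h = 0).card := by
    intro z
    obtain ⟨g, hg⟩ := hs_surj z
    have hginv : s g⁻¹ = - z := by
      have h1 := hs_mul g⁻¹ g
      rw [inv_mul_cancel, hg] at h1
      have h2 : s 1 = 0 := by
        have := hs_mul 1 1
        rw [mul_one] at this
        exact left_eq_add.1 this
      rw [h2] at h1
      exact eq_neg_of_add_eq_zero_left h1.symm
    refine Finset.card_nbij' (i := fun h => g⁻¹ * h) (j := fun h => g * h) ?_ ?_ ?_ ?_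
    · intro h hh
      simp only [Finset.coe_filter, Finset.mem_univ, true_and, Set.mem_setOf_eq] at hh ⊢
      rw [hs_mul, hginv, hh, neg_add_cancel]
    · intro h hh
      simp only [Finset.coe_filter, Finset.mem_univ, true_and, Set.mem_setOf_eq] at hh ⊢
      rw [hs_mul, hg, hh, add_zero]
    · intro h _
      simp
    · intro h _
      simp
  have hcount : Fintype.card H = p ^ u * (univ.filter fun h => s h = 0).card := by
    have h1 : (univ : Finset H).card = ∑ z : Fin u → ZMod p,
        ((univ : Finset H).filter fun h => s h = z).card :=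
      Finset.card_eq_sum_card_fiberwise (fun x _ => Finset.mem_univ _)
    rw [Finset.card_univ] at h1
    rw [h1, Finset.sum_congr rfl (fun z _ => hfib z), Finset.sum_const, Finset.card_univ,
      smul_eq_mul]
    simp
  obtain ⟨c, hc, hc0, hcw⟩ := small_of_ext hf hf0
    ((univ : Finset Y) ×ˢ (univ.filter fun h => s h = 0)) (by
      rintro ⟨y, h⟩ hx
      simp only [Finset.mem_product, Finset.mem_filter, Finset.mem_univ, true_and] at hx
      rw [hfx, hzero h hx, mul_zero])
  have h1 := hw c hc hc0
  rw [Finset.card_product, Finset.card_univ] at hcw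
  have h2 : (hammingNorm c : ℝ) ≤ Fintype.card Y * (univ.filter fun h => s h = 0).card := by
    exact_mod_cast hcw
  rw [Fintype.card_prod, hcount] at h1
  push_cast at h1
  have h3 : (0 : ℝ) < (univ.filter fun h => s h = 0).card := by
    have : 0 < (univ.filter fun h => s h = 0).card := by
      by_contra h
      have h4 : (univ.filter fun h => s h = 0).card = 0 := by omega
      rw [h4, mul_zero] at hcount
      rw [hcount] at hHpos
      simp at hHpos
    exact_mod_cast this
  have h4 : 1 < δ * (p : ℝ) ^ u := by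
    rw [div_lt_iff₀ hδ] at hu
    linarith
  have h5 : (Fintype.card Y : ℝ) * (univ.filter fun h => s h = 0).card <
      δ * (Fintype.card Y * ((p : ℝ) ^ u * (univ.filter fun h => s h = 0).card)) := by
    calc (Fintype.card Y : ℝ) * (univ.filter fun h => s h = 0).card
        = 1 * (Fintype.card Y * (univ.filter fun h => s h = 0).card) := by rw [one_mul]
      _ < (δ * (p : ℝ) ^ u) * (Fintype.card Y * (univ.filter fun h => s h = 0).card) :=
          mul_lt_mul_of_pos_right h4 (by positivity)
      _ = _ := by ring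
  linarith

end H70.AB
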