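import Mathlib
import Pool.Agent.H70R2.AB.CaseB

/-!
# Quasi-abelian codes over groups of bounded exponent
-/

open Finset Module

namespace H70.AB

/-- a finite field of characteristic two with given roots of unity -/
theorem exists_field (n : ℕ) (hn : Odd n) :
    ∃ (K : Type) (_ : Field K) (_ : Algebra (ZMod 2) K) (_ : Fintype K),
      HasEnoughRootsOfUnity K n := by
  have hn0 : 0 < n := hn.pos
  have htot : 0 < Nat.totient n := Nat.totient_pos.2 hn0
  let K := GaloisField 2 (Nat.totient n)
  letI : Fintype K := Fintype.ofFinite K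
  refine ⟨K, inferInstance, inferInstance, inferInstance, ?_⟩
  have hcard : Nat.card K = 2 ^ Nat.totient n := GaloisField.card 2 _ htot.ne'
  have hdvd : n ∣ Nat.card Kˣ := by
    rw [Nat.card_units, hcard]
    have h1 := Nat.ModEq.pow_totient (Nat.coprime_two_left.2 hn)
    exact (Nat.modEq_iff_dvd' Nat.one_le_two_pow).1 h1.symm
  constructor
  · obtain ⟨g, hg⟩ := IsCyclic.exists_ofOrder_eq_natCard (α := Kˣ)
    obtain ⟨k, hk⟩ := hdvd
    have hpos : 0 < Nat.card Kˣ := Nat.card_pos
    refine ⟨((g ^ k : Kˣ) : K), ?_⟩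
    rw [IsPrimitiveRoot.coe_units_iff]
    have h2 : orderOf (g ^ k) = n := by
      have hk0 : k ≠ 0 := by
        rintro rfl
        omega
      rw [orderOf_pow_of_dvd hk0 (by rw [hg, hk]; exact Dvd.intro_left n rfl), hg, hk,
        Nat.mul_div_cancel _ (Nat.pos_of_ne_zero hk0)]
    have h3 := IsPrimitiveRoot.orderOf (g ^ k)
    rwa [h2] at h3
  · haveI : NeZero n := ⟨hn0.ne'⟩
    exact rootsOfUnity.isCyclic K n

/-- projections -/
theorem exists_surj {I : Type} (n : I → ℕ) (q m : ℕ) [NeZero q]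
    (s : Fin m → I) (hs : Function.Injective s) (hq : ∀ k, q ∣ n (s k)) :
    ∃ φ : Multiplicative (∀ i, ZMod (n i)) →* Multiplicative (Fin m → ZMod q),
      Function.Surjective φ := by
  classical
  let φ0 : (∀ i, ZMod (n i)) →+ (Fin m → ZMod q) :=
    { toFun := fun x k => ZMod.castHom (hq k) (ZMod q) (x (s k))
      map_zero' := by
        funext k
        simp only [Pi.zero_apply, map_zero]
      map_add' := by
        intro x y
        funext k
        simp only [Pi.add_apply, map_add] }
  refine ⟨AddMonoidHom.toMultiplicative φ0, ?_⟩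
  intro z
  let t : I → ℕ := fun i => if h : ∃ k, s k = i then ((Multiplicative.toAdd z) h.choose).val else 0
  refine ⟨Multiplicative.ofAdd (fun i => (t i : ZMod (n i))), ?_⟩
  apply Multiplicative.toAdd.injective
  funext k
  change ZMod.castHom (hq k) (ZMod q) ((t (s k) : ℕ) : ZMod (n (s k))) = _
  rw [map_natCast]
  have hex : ∃ k', s k' = s k := ⟨k, rfl⟩
  have h1 : hex.choose = k := hs hex.choose_spec
  have h2 : t (s k) = ((Multiplicative.toAdd z) k).val := by
    simp only [t, dif_pos hex, h1]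
  rw [h2, ZMod.natCast_zmod_val]

/-- transfer along a decomposition of the group -/
theorem transfer {G P H : Type} [AddCommGroup G] [Fintype G] [Group P] [Fintype P] [CommGroup H]
    [Fintype H] (η : G ≃ P × H)
    (hη : ∀ g g', η (g + g') = ((η g).1 * (η g').1, (η g).2 * (η g').2)) {ℓ : ℕ} {δ ε : ℝ}
    (hmain : ∀ C : Submodule (ZMod 2) ((P × Fin ℓ) × H → ZMod 2),
        (∀ g : P, ∀ f ∈ C, (fun x : (P × Fin ℓ) × H => f ((g * x.1.1, x.1.2), x.2)) ∈ C) →
        (∀ h : H, ∀ f ∈ C, (fun x : (P × Fin ℓ) × H => f (x.1, h * x.2)) ∈ C) →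
        (∀ f ∈ C, f ≠ 0 → δ * Fintype.card ((P × Fin ℓ) × H) ≤ hammingNorm f) →
        (finrank (ZMod 2) C : ℝ) ≤ ε * Fintype.card ((P × Fin ℓ) × H))
    (C : Submodule (ZMod 2) (G × Fin ℓ → ZMod 2))
    (hC : ∀ g : G, ∀ f ∈ C, (fun x : G × Fin ℓ => f (g + x.1, x.2)) ∈ C)
    (hw : ∀ f ∈ C, f ≠ 0 → δ * Fintype.card (G × Fin ℓ) ≤ hammingNorm f) :
    (finrank (ZMod 2) C : ℝ) ≤ ε * Fintype.card (G × Fin ℓ) := by
  classical
  let σ : (P × Fin ℓ) × H ≃ G × Fin ℓ :=
    { toFun := fun x => (η.symm (x.1.1, x.2), x.1.2)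
      invFun := fun y => (((η y.1).1, y.2), (η y.1).2)
      left_inv := by
        rintro ⟨⟨a, i⟩, h⟩
        simp
      right_inv := by
        rintro ⟨g, i⟩
        simp }
  have hcard : Fintype.card ((P × Fin ℓ) × H) = Fintype.card (G × Fin ℓ) := Fintype.card_congr σ
  let T : (G × Fin ℓ → ZMod 2) ≃ₗ[ZMod 2] ((P × Fin ℓ) × H → ZMod 2) :=
    LinearEquiv.funCongrLeft (ZMod 2) (ZMod 2) σ
  have hT : ∀ f x, T f x = f (σ x) := fun _ _ => rfl
  have hση : ∀ (a : P) (h : H) (x : (P × Fin ℓ) × H),
      σ ((a * x.1.1, x.1.2), h * x.2) = (η.symm (a, h) + (σ x).1, (σ x).2) := by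
    intro a h x
    apply Prod.ext
    · change η.symm (a * x.1.1, h * x.2) = η.symm (a, h) + η.symm (x.1.1, x.2)
      rw [Equiv.symm_apply_eq, hη, Equiv.apply_symm_apply, Equiv.apply_symm_apply]
    · rfl
  have h0 := hmain (C.map T.toLinearMap) (by
    intro a F hF
    obtain ⟨f, hf, rfl⟩ := hF
    refine ⟨_, hC (η.symm (a, 1)) f hf, ?_⟩
    funext x
    change f (η.symm (a, 1) + (σ x).1, (σ x).2) = f (σ ((a * x.1.1, x.1.2), x.2))
    rw [← hση, one_mul]) (by
    intro h F hF
    obtain ⟨f, hf, rfl⟩ := hF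
    refine ⟨_, hC (η.symm (1, h)) f hf, ?_⟩
    funext x
    change f (η.symm (1, h) + (σ x).1, (σ x).2) = f (σ (x.1, h * x.2))
    rw [← hση, one_mul]) (by
    intro F hF hF0
    obtain ⟨f, hf, rfl⟩ := hF
    have hf0 : f ≠ 0 := by
      rintro rfl
      exact hF0 (map_zero _)
    have h1 := hw f hf hf0
    rw [hcard]
    refine h1.trans (le_of_eq ?_)
    congr 1
    change (univ.filter fun x => f x ≠ 0).card = (univ.filter fun x => f (σ x) ≠ 0).card
    symm
    refine Finset.card_nbij' (i := fun x => σ x) (j := fun y => σ.symm y) ?_ ?_ ?_ ?_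
    · intro x hx
      simpa using hx
    · intro x hx
      simpa using hx
    · intro x _
      simp
    · intro x _
      simp)
  rw [hcard] at h0
  have h1 : finrank (ZMod 2) (C.map T.toLinearMap) = finrank (ZMod 2) C :=
    LinearEquiv.finrank_map_eq T C
  rw [h1] at h0
  exact h0

/-- main theorem. -/
theorem main (E ℓ : ℕ) (hE : 0 < E) (δ ε : ℝ) (hδ : 0 < δ) (hε : 0 < ε) :
    ∃ N : ℕ, ∀ (G : Type) [AddCommGroup G] [Fintype G], (∀ g : G, E • g = 0) →
      N ≤ Fintype.card G →
      ∀ C : Submodule (ZMod 2) (G × Fin ℓ → ZMod 2),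
        (∀ g : G, ∀ f ∈ C, (fun x : G × Fin ℓ => f (g + x.1, x.2)) ∈ C) →
        (∀ f ∈ C, f ≠ 0 → δ * Fintype.card (G × Fin ℓ) ≤ hammingNorm f) →
        (finrank (ZMod 2) C : ℝ) ≤ ε * Fintype.card (G × Fin ℓ) := by
  classical
  -- the odd part of `E`
  obtain ⟨a, E', hE'odd, hEE'⟩ : ∃ a E', Odd E' ∧ E = 2 ^ a * E' := by
    obtain ⟨a, E', h1, h2⟩ := Nat.exists_eq_two_pow_mul_odd hE.ne'
    exact ⟨a, E', h1, h2⟩
  obtain ⟨K, _, _, _, hK⟩ := exists_field E' hE'odd
  haveI : NeZero E' := ⟨hE'odd.pos.ne'⟩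
  obtain ⟨M, hM⟩ := caseA K ℓ δ ε hδ hε
  have hB : ∀ q : ℕ, ∃ n : ℕ, q.Prime → Odd q → q ∣ E' →
      ∀ (Y H : Type) [Fintype Y] [CommGroup H] [Fintype H]
      [HasEnoughRootsOfUnity K (Monoid.exponent H)] (φ : H →* Multiplicative (Fin n → ZMod q)),
      Fintype.card Y ≤ E ^ M * ℓ → Function.Surjective φ → Odd (Fintype.card H) →
      ∀ C : Submodule (ZMod 2) (Y × H → ZMod 2),
        (∀ h : H, ∀ f ∈ C, (fun x : Y × H => f (x.1, h * x.2)) ∈ C) →
        (∀ f ∈ C, f ≠ 0 → δ * Fintype.card (Y × H) ≤ hammingNorm f) →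
        (finrank (ZMod 2) C : ℝ) ≤ ε * Fintype.card (Y × H) := by
    intro q
    by_cases hq : q.Prime ∧ Odd q ∧ q ∣ E'
    · haveI : Fact q.Prime := ⟨hq.1⟩
      haveI := HasEnoughRootsOfUnity.of_dvd K hq.2.2
      obtain ⟨ζ, hζ⟩ := HasEnoughRootsOfUnity.exists_primitiveRoot K q
      obtain ⟨n, hn⟩ := caseB K (E ^ M * ℓ) q hq.2.1 hζ δ ε hδ hε
      exact ⟨n, fun _ _ _ => hn⟩
    · exact ⟨0, fun h1 h2 h3 => (hq ⟨h1, h2, h3⟩).elim⟩
  choose nn hnn using hB
  set T := M + ∑ q ∈ range (E + 1), nn q with hT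
  refine ⟨E ^ T + 1, ?_⟩
  intro G _ _ hexp hN C hC hw
  obtain ⟨ι, _, p, hp, e, ⟨ψ0⟩⟩ := AddCommGroup.equiv_directSum_zmod_of_finite G
  set n : ι → ℕ := fun i => p i ^ e i with hn
  have hnpos : ∀ i, 0 < n i := fun i => pow_pos (hp i).pos _
  haveI : ∀ i, NeZero (n i) := fun i => ⟨(hnpos i).ne'⟩
  let ψ : G ≃+ (∀ i, ZMod (n i)) :=
    ψ0.trans (DirectSum.addEquivProd (fun i => ZMod (p i ^ e i)))
  have hnE : ∀ i, n i ∣ E := by
    intro i
    have h1 := hexp (ψ.symm (Pi.single i 1))
    have h2 := congrArg ψ h1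
    rw [map_nsmul, AddEquiv.apply_symm_apply, map_zero] at h2
    have h3 := congrFun h2 i
    rw [Pi.smul_apply, Pi.single_eq_same, Pi.zero_apply, nsmul_one] at h3
    exact (ZMod.natCast_eq_zero_iff _ _).1 h3
  -- cardinality
  have hcardG : Fintype.card G = ∏ i, n i := by
    rw [Fintype.card_congr ψ.toEquiv, Fintype.card_pi]
    exact Finset.prod_congr rfl fun i _ => ZMod.card _
  let J : Finset ι := univ.filter fun i => e i ≠ 0
  have hcardJ : T < J.card := by
    by_contra h
    push Not at h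
    have h1 : ∏ i, n i ≤ E ^ J.card := by
      rw [← Finset.prod_subset (Finset.subset_univ J)]
      · calc ∏ i ∈ J, n i ≤ ∏ i ∈ J, E :=
            Finset.prod_le_prod' fun i _ => Nat.le_of_dvd hE (hnE i)
          _ = E ^ J.card := by rw [Finset.prod_const]
      · intro i _ hi
        simp only [J, Finset.mem_filter, Finset.mem_univ, true_and, not_not] at hi
        simp [hn, hi]
    have h2 : E ^ J.card ≤ E ^ T := Nat.pow_le_pow_right hE h
    omega
  -- the two parts
  let P := Multiplicative (∀ i : {i // p i = 2}, ZMod (n i))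
  let H := Multiplicative (∀ i : {i // ¬ p i = 2}, ZMod (n i))
  let η : G ≃ P × H :=
    ψ.toEquiv.trans (((Equiv.piEquivPiSubtypeProd (fun i => p i = 2) (fun i => ZMod (n i)))).trans
      (Equiv.prodCongr Multiplicative.ofAdd Multiplicative.ofAdd))
  have hη : ∀ g g', η (g + g') = ((η g).1 * (η g').1, (η g).2 * (η g').2) := by
    intro g g'
    apply Prod.ext
    · apply Multiplicative.toAdd.injective
      funext i
      change (ψ (g + g')) i = (ψ g) i + (ψ g') i
      rw [map_add]
      rfl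
    · apply Multiplicative.toAdd.injective
      funext i
      change (ψ (g + g')) i = (ψ g) i + (ψ g') i
      rw [map_add]
      rfl
  have hPcard : Fintype.card P = ∏ i : {i // p i = 2}, n i := by
    rw [Fintype.card_multiplicative, Fintype.card_pi]
    exact Finset.prod_congr rfl fun i _ => ZMod.card _
  have hHcard : Fintype.card H = ∏ i : {i // ¬ p i = 2}, n i := by
    rw [Fintype.card_multiplicative, Fintype.card_pi]
    exact Finset.prod_congr rfl fun i _ => ZMod.card _
  have hPgroup : IsPGroup 2 P := by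
    apply IsPGroup.of_card (n := ∑ i : {i // p i = 2}, e i)
    rw [Nat.card_eq_fintype_card, hPcard, ← Finset.prod_pow_eq_pow_sum]
    refine Finset.prod_congr rfl fun i _ => ?_
    simp only [hn, i.2]
  have hodd_n : ∀ i : {i // ¬ p i = 2}, Nat.Coprime 2 (n i) := by
    intro i
    apply Nat.Coprime.pow_right
    rw [Nat.coprime_primes Nat.prime_two (hp i)]
    exact fun h => i.2 h.symm
  have hHodd : Odd (Fintype.card H) := by
    rw [hHcard, ← Nat.coprime_two_left]
    exact Nat.Coprime.prod_right fun i _ => hodd_n i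
  have hnE' : ∀ i : {i // ¬ p i = 2}, n i ∣ E' := by
    intro i
    have h1 := hnE i
    rw [hEE'] at h1
    exact Nat.Coprime.dvd_of_dvd_mul_left (Nat.Coprime.pow_right a (hodd_n i).symm) h1
  have hHexp : Monoid.exponent H ∣ E' := by
    apply Monoid.exponent_dvd_of_forall_pow_eq_one
    intro h
    apply Multiplicative.toAdd.injective
    funext i
    change E' • (Multiplicative.toAdd h) i = 0
    rw [nsmul_eq_mul, (ZMod.natCast_eq_zero_iff _ _).2 (hnE' i), zero_mul]
  haveI : HasEnoughRootsOfUnity K (Monoid.exponent H) := HasEnoughRootsOfUnity.of_dvd K hHexp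
  -- the two cases
  let J2 : Finset ι := univ.filter fun i => e i ≠ 0 ∧ p i = 2
  rcases le_or_gt M J2.card with hJ2 | hJ2
  · -- the even case
    obtain ⟨s⟩ : Nonempty (Fin M ↪ J2) := by
      apply Function.Embedding.nonempty_of_card_le
      simpa using hJ2
    obtain ⟨φ, hφ⟩ := exists_surj (fun i : {i // p i = 2} => n i) 2 M
      (fun k => ⟨(s k : ι), by
        have := (s k).2
        simp only [J2, Finset.mem_filter, Finset.mem_univ, true_and] at this
        exact this.2⟩)
      (by
        intro k k' hkk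
        exact s.injective (Subtype.ext (congrArg (fun i : {i // p i = 2} => (i : ι)) hkk)))
      (by
        intro k
        have := (s k).2
        simp only [J2, Finset.mem_filter, Finset.mem_univ, true_and] at this
        change 2 ∣ p (s k) ^ e (s k)
        rw [this.2]
        exact dvd_pow_self 2 this.1)
    exact transfer η hη (fun C' h1 h2 h3 => hM M le_rfl P H φ hPgroup hφ hHodd C' h1 h2 h3)
      C hC hw
  · -- the odd case
    have hPle : Fintype.card P ≤ E ^ M := by
      rw [hPcard]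
      have h1 : ∏ i : {i // p i = 2}, n i = ∏ i ∈ univ.filter (fun i => p i = 2), n i := by
        rw [← Finset.prod_subtype_eq_prod_filter]
        rw [Finset.subtype_univ]
      rw [h1, ← Finset.prod_subset (s₁ := J2)]
      · calc ∏ i ∈ J2, n i ≤ ∏ i ∈ J2, E :=
            Finset.prod_le_prod' fun i _ => Nat.le_of_dvd hE (hnE i)
          _ = E ^ J2.card := by rw [Finset.prod_const]
          _ ≤ E ^ M := Nat.pow_le_pow_right hE hJ2.le
      · intro i hi
        simp only [J2, Finset.mem_filter, Finset.mem_univ, true_and] at hi ⊢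
        exact hi.2
      · intro i hi hi'
        simp only [J2, Finset.mem_filter, Finset.mem_univ, true_and] at hi hi'
        have h2 : e i = 0 := by
          by_contra h
          exact hi' ⟨h, hi⟩
        simp [hn, h2]
    obtain ⟨i0, hi0, hi0'⟩ : ∃ i0 : ι, (e i0 ≠ 0 ∧ p i0 ≠ 2) ∧
        nn (p i0) ≤ (univ.filter fun i => e i ≠ 0 ∧ p i = p i0).card := by
      by_contra hall
      push Not at hall
      have h1 : J ⊆ J2 ∪ ((range (E + 1)).filter fun q => q ≠ 2).biUnion
          fun q => univ.filter fun i => e i ≠ 0 ∧ p i = q := by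
        intro i hi
        simp only [J, Finset.mem_filter, Finset.mem_univ, true_and] at hi
        rw [Finset.mem_union]
        by_cases h2 : p i = 2
        · left
          simp only [J2, Finset.mem_filter, Finset.mem_univ, true_and]
          exact ⟨hi, h2⟩
        · right
          simp only [Finset.mem_biUnion, Finset.mem_filter, Finset.mem_range, Finset.mem_univ,
            true_and]
          refine ⟨p i, ⟨?_, h2⟩, hi, rfl⟩
          have h3 : p i ∣ n i := dvd_pow_self _ hi
          exact Nat.lt_succ_of_le (Nat.le_of_dvd hE (h3.trans (hnE i)))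
      have h2 := (Finset.card_le_card h1).trans (Finset.card_union_le _ _)
      have h3 : (((range (E + 1)).filter fun q => q ≠ 2).biUnion
          fun q => univ.filter fun i => e i ≠ 0 ∧ p i = q).card ≤ ∑ q ∈ range (E + 1), nn q := by
        refine Finset.card_biUnion_le.trans ?_
        refine le_trans (Finset.sum_le_sum (g := nn) ?_)
          (Finset.sum_le_sum_of_subset (Finset.filter_subset _ _))
        intro q hq
        simp only [Finset.mem_filter, Finset.mem_range] at hq
        rcases Finset.eq_empty_or_nonempty (univ.filter fun i => e i ≠ 0 ∧ p i = q) with h4 | ⟨i, hi⟩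
        · rw [h4]
          simp
        · simp only [Finset.mem_filter, Finset.mem_univ, true_and] at hi
          have h5 := hall i ⟨hi.1, by rw [hi.2]; exact hq.2⟩
          rw [hi.2] at h5
          exact h5.le
      omega
    have hq_odd : Odd (p i0) := (hp i0).odd_of_ne_two hi0.2
    have hq_dvd : p i0 ∣ E' :=
      (dvd_pow_self (p i0) hi0.1).trans (hnE' ⟨i0, hi0.2⟩)
    haveI : NeZero (p i0) := ⟨(hp i0).ne_zero⟩
    obtain ⟨s⟩ : Nonempty (Fin (nn (p i0)) ↪
        ((univ.filter fun i => e i ≠ 0 ∧ p i = p i0 : Finset ι) : Finset ι)) := by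
      apply Function.Embedding.nonempty_of_card_le
      rw [Fintype.card_coe, Fintype.card_fin]
      exact hi0'
    have hsp : ∀ k, e (s k) ≠ 0 ∧ p (s k) = p i0 := by
      intro k
      have := (s k).2
      simpa only [Finset.mem_filter, Finset.mem_univ, true_and] using this
    obtain ⟨φ, hφ⟩ := exists_surj (fun i : {i // ¬ p i = 2} => n i) (p i0) (nn (p i0))
      (fun k => ⟨(s k : ι), by
        rw [(hsp k).2]
        exact hi0.2⟩)
      (by
        intro k k' hkk
        exact s.injective (Subtype.ext (congrArg (fun i : {i // ¬ p i = 2} => (i : ι)) hkk)))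
      (by
        intro k
        change p i0 ∣ p (s k) ^ e (s k)
        rw [(hsp k).2]
        exact dvd_pow_self _ (hsp k).1)
    refine transfer η hη (fun C' _ h2 h3 => hnn (p i0) (hp i0) hq_odd hq_dvd (P × Fin ℓ) H φ ?_ hφ
      hHodd C' h2 h3) C hC hw
    rw [Fintype.card_prod, Fintype.card_fin]
    exact Nat.mul_le_mul_right _ hPle

end H70.AB
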